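import Mathlib
import Pool.Agent.Results.MP_c71f82_gt.NonProductH2R

/-! Minimal foliations for all left-invariant metrics on `Aff(ℝ) × ℝ`. -/

open scoped ContDiff Topology
open Set Filter

noncomputable section

namespace Pool.Agent.Y226.CM

open Pool.Agent.Results.MP_c71f82_gt.NonProductH2R

/-- the parameters of a left-invariant metric in Cholesky form -/
structure Par where
  l : ℝ
  m : ℝ
  s : ℝ
  nu : ℝ
  rho : ℝ
  tau : ℝ
  hl : 0 < l
  hm : 0 < m
  hs : 0 < s

variable (P : Par)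

/-- `θ_A` -/
def fA (p u : V) : ℝ := P.s * Real.exp (-p.2.1) * u.1 + P.rho * u.2.2 + P.tau * u.2.1

/-- `θ_C` -/
def fC (u : V) : ℝ := P.m * u.2.2 + P.nu * u.2.1

/-- the metric -/
def gP (p u w : V) : ℝ :=
  fA P p u * fA P p w + fC P u * fC P w + P.l ^ 2 * (u.2.1 * w.2.1)

/-- the angle -/
def phi (p : V) : ℝ := fC P p / P.l

/-- the differential of the angle -/
def dphi : V →L[ℝ] ℝ := (P.m / P.l) • dz + (P.nu / P.l) • dt

lemma dphi_apply (u : V) : dphi P u = fC P u / P.l := by
  simp only [dphi, fC, add_apply, smul_apply, dz_apply, dt_apply, smul_eq_mul]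
  ring

lemma hasFDerivAt_phi (p : V) : HasFDerivAt (phi P) (dphi P) p := by
  have h : phi P = dphi P := by
    funext u
    rw [dphi_apply]
    rfl
  rw [h]
  exact (dphi P).hasFDerivAt

/-- the normal field -/
def NP (p : V) : V :=
  (-(Real.exp p.2.1 * (((P.tau - P.rho * P.nu / P.m) / (P.l * P.s)) * Real.cos (phi P p)
      + (P.rho / (P.m * P.s)) * Real.sin (phi P p))),
    (1 / P.l) * Real.cos (phi P p),
    (1 / P.m) * Real.sin (phi P p) - (P.nu / (P.l * P.m)) * Real.cos (phi P p))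

lemma conormal_NP (p u : V) : conormal (gP P) (NP P) p u
    = Real.cos (phi P p) * (P.l * u.2.1) + Real.sin (phi P p) * fC P u := by
  have hl := P.hl.ne'
  have hm := P.hm.ne'
  have hs := P.hs.ne'
  have hE : Real.exp (-p.2.1) ≠ 0 := (Real.exp_pos _).ne'
  have hE' : Real.exp p.2.1 = (Real.exp (-p.2.1))⁻¹ := by rw [Real.exp_neg, inv_inv]
  simp only [conormal, gP, NP, fA]
  rw [hE']
  generalize Real.exp (-p.2.1) = E at *
  generalize Real.cos (phi P p) = c
  generalize Real.sin (phi P p) = d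
  simp only [fC]
  field_simp
  ring

lemma smooth_NP : ContDiff ℝ ∞ (NP P) := by
  have h : ContDiff ℝ ∞ (phi P) := by
    unfold phi fC
    fun_prop
  unfold NP
  fun_prop

lemma fderiv_NP (p u : V) : fderiv ℝ (NP P) p u =
    (-(Real.exp p.2.1 * u.2.1 * (((P.tau - P.rho * P.nu / P.m) / (P.l * P.s)) * Real.cos (phi P p)
      + (P.rho / (P.m * P.s)) * Real.sin (phi P p)))
      - Real.exp p.2.1 * (-((P.tau - P.rho * P.nu / P.m) / (P.l * P.s)) * Real.sin (phi P p)
      + (P.rho / (P.m * P.s)) * Real.cos (phi P p)) * (fC P u / P.l),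
    -(1 / P.l) * Real.sin (phi P p) * (fC P u / P.l),
    ((1 / P.m) * Real.cos (phi P p) + (P.nu / (P.l * P.m)) * Real.sin (phi P p)) *
      (fC P u / P.l)) := by
  have hcos : HasFDerivAt (fun p => Real.cos (phi P p)) (-Real.sin (phi P p) • dphi P) p :=
    (hasFDerivAt_phi P p).cos
  have hsin : HasFDerivAt (fun p => Real.sin (phi P p)) (Real.cos (phi P p) • dphi P) p :=
    (hasFDerivAt_phi P p).sin
  have hexp : HasFDerivAt (fun p : V => Real.exp p.2.1) (Real.exp p.2.1 • dt) p :=
    (dt.hasFDerivAt (x := p)).exp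
  have h1 := ((hexp.mul ((hcos.const_mul ((P.tau - P.rho * P.nu / P.m) / (P.l * P.s))).add
    (hsin.const_mul (P.rho / (P.m * P.s))))).neg).prodMk
    ((hcos.const_mul (1 / P.l)).prodMk
      ((hsin.const_mul (1 / P.m)).sub (hcos.const_mul (P.nu / (P.l * P.m)))))
  have h2 : HasFDerivAt (NP P) _ p := h1
  rw [h2.fderiv]
  ext
  · simp [dphi_apply]
    ring
  · simp [dphi_apply]
    ring
  · simp [dphi_apply]
    ring

lemma fderiv_gP (p n u w : V) :
    fderiv ℝ (fun y => gP P y u w) p n =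
      -(P.s * Real.exp (-p.2.1) * u.1 * n.2.1) * fA P p w
        - fA P p u * (P.s * Real.exp (-p.2.1) * w.1 * n.2.1) := by
  have h0 : HasFDerivAt (fun p : V => Real.exp (-p.2.1)) (Real.exp (-p.2.1) • (-dt)) p :=
    (dt.hasFDerivAt (x := p)).neg.exp
  have h1 : ∀ u : V, HasFDerivAt (fun y => fA P y u)
      (u.1 • (P.s • (Real.exp (-p.2.1) • (-dt)))) p := by
    intro u
    exact (((h0.const_mul P.s).mul_const u.1).add_const _).add_const _
  have h2 := (((h1 u).mul (h1 w)).add_const (fC P u * fC P w)).add_const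
    (P.l ^ 2 * (u.2.1 * w.2.1))
  have h3 : HasFDerivAt (fun y => gP P y u w) _ p := h2
  rw [h3.fderiv]
  simp
  ring

/-- the second fundamental form -/
lemma secondFF_P (p u : V) : secondFF (gP P) (NP P) p u u
    = -(1 / P.l) * Real.cos (phi P p) * fA P p u ^ 2
      + P.rho / (P.m * P.l) * (Real.cos (phi P p) * fC P u - Real.sin (phi P p) * (P.l * u.2.1))
        * fA P p u
      + 1 / P.l * fC P u * (Real.cos (phi P p) * fC P u - Real.sin (phi P p) * (P.l * u.2.1)) := by
  have hl := P.hl.ne'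
  have hm := P.hm.ne'
  have hs := P.hs.ne'
  have hE : Real.exp (-p.2.1) ≠ 0 := (Real.exp_pos _).ne'
  have hE' : Real.exp p.2.1 = (Real.exp (-p.2.1))⁻¹ := by rw [Real.exp_neg, inv_inv]
  rw [secondFF, fderiv_gP, fderiv_NP]
  simp only [gP, NP, fA]
  rw [hE']
  generalize Real.exp (-p.2.1) = E at *
  generalize Real.cos (phi P p) = c
  generalize Real.sin (phi P p) = d
  simp only [fC]
  field_simp
  ring

lemma isFoliation_NP : IsFoliation (gP P) (NP P) where
  smooth := smooth_NP P
  unit x := by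
    have h := conormal_NP P x (NP P x)
    rw [conormal] at h
    rw [h]
    have hl := P.hl.ne'
    have hm := P.hm.ne'
    simp only [fC, NP]
    have := Real.sin_sq_add_cos_sq (phi P x)
    field_simp
    linear_combination P.l * this
  integrable x u v hu hv := by
    have hcos : HasFDerivAt (fun p => Real.cos (phi P p)) (-Real.sin (phi P x) • dphi P) x :=
      (hasFDerivAt_phi P x).cos
    have hsin : HasFDerivAt (fun p => Real.sin (phi P p)) (Real.cos (phi P x) • dphi P) x :=
      (hasFDerivAt_phi P x).sin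
    have hd : ∀ w u : V, fderiv ℝ (fun y => conormal (gP P) (NP P) y w) x u
        = -Real.sin (phi P x) * (fC P u / P.l) * (P.l * w.2.1)
          + Real.cos (phi P x) * (fC P u / P.l) * fC P w := by
      intro w u
      have h2 : HasFDerivAt (fun y => conormal (gP P) (NP P) y w)
          ((P.l * w.2.1) • (-Real.sin (phi P x) • dphi P)
            + (fC P w) • (Real.cos (phi P x) • dphi P)) x := by
        simp only [conormal_NP]
        exact (hcos.mul_const (P.l * w.2.1)).add (hsin.mul_const (fC P w))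
      rw [h2.fderiv]
      simp [dphi_apply]
      ring
    rw [hd, hd]
    rw [conormal_NP] at hu hv
    have hl := P.hl.ne'
    field_simp
    linear_combination P.l * (u.2.1 * hv - v.2.1 * hu)

lemma meanCurvature_P (p : V) : HasMeanCurvature (gP P) (NP P) p 0 := by
  intro e₁ e₂ h1 h2 h11 h22 h12
  rw [secondFF_P, secondFF_P]
  rw [conormal_NP] at h1 h2
  simp only [gP] at h11 h22 h12
  have hcs := Real.sin_sq_add_cos_sq (phi P p)
  generalize Real.cos (phi P p) = c at *
  generalize Real.sin (phi P p) = d at *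
  generalize fA P p e₁ = a1 at *
  generalize fA P p e₂ = a2 at *
  generalize fC P e₁ = c1 at *
  generalize fC P e₂ = c2 at *
  obtain ⟨t1, ht1⟩ : ∃ t, t = P.l * e₁.2.1 := ⟨_, rfl⟩
  obtain ⟨t2, ht2⟩ : ∃ t, t = P.l * e₂.2.1 := ⟨_, rfl⟩
  rw [← ht1] at h1 ⊢
  rw [← ht2] at h2 ⊢
  have g11 : a1 * a1 + c1 * c1 + t1 * t1 = 1 := by rw [ht1]; linear_combination h11
  have g22 : a2 * a2 + c2 * c2 + t2 * t2 = 1 := by rw [ht2]; linear_combination h22
  have g12 : a1 * a2 + c1 * c2 + t1 * t2 = 0 := by rw [ht1, ht2]; linear_combination h12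
  obtain ⟨r1, hr1⟩ : ∃ r, r = c * c1 - d * t1 := ⟨_, rfl⟩
  obtain ⟨r2, hr2⟩ : ∃ r, r = c * c2 - d * t2 := ⟨_, rfl⟩
  have x1 : c1 = c * r1 := by rw [hr1]; linear_combination (-c1) * hcs + d * h1
  have x2 : c2 = c * r2 := by rw [hr2]; linear_combination (-c2) * hcs + d * h2
  have y1 : t1 = -d * r1 := by rw [hr1]; linear_combination (-t1) * hcs + c * h1
  have y2 : t2 = -d * r2 := by rw [hr2]; linear_combination (-t2) * hcs + c * h2
  rw [← hr1, ← hr2]
  have k1 : a1 * a1 + r1 * r1 = 1 := by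
    rw [x1, y1] at g11
    linear_combination g11 - r1 * r1 * hcs
  have k2 : a2 * a2 + r2 * r2 = 1 := by
    rw [x2, y2] at g22
    linear_combination g22 - r2 * r2 * hcs
  have k3 : a1 * a2 + r1 * r2 = 0 := by
    rw [x1, y1, x2, y2] at g12
    linear_combination g12 - r1 * r2 * hcs
  obtain ⟨D, hD⟩ : ∃ D, D = a1 * r2 - a2 * r1 := ⟨_, rfl⟩
  have z1 : a2 = -r1 * D := by rw [hD]; linear_combination (-a2) * k1 + a1 * k3
  have z2 : r2 = a1 * D := by rw [hD]; linear_combination (-r2) * k1 + r1 * k3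
  have z3 : D * D = 1 := by
    rw [z1, z2] at k2
    linear_combination k2 - D * D * k1
  rw [x1, x2, z1, z2]
  have hl := P.hl.ne'
  have hm := P.hm.ne'
  field_simp
  linear_combination (-a1 * P.rho * r1 + a1 ^ 2 * c * P.m - c * P.m * r1 ^ 2) * z3

end Pool.Agent.Y226.CM
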