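import Mathlib
import Pool.Agent.Y226.CM.Fol

/-! Every left-invariant metric of `Aff(ℝ) × ℝ` has the Cholesky form. -/

open scoped ContDiff Topology
open Set Filter

noncomputable section

namespace Pool.Agent.Y226.CM

open Pool.Agent.Results.MP_c71f82_gt.NonProductH2R

lemma fderiv_mulH (a x u : V) :
    fderiv ℝ (mulH a) x u = (Real.exp a.2.1 * u.1, u.2.1, u.2.2) := by
  have h1 : HasFDerivAt (mulH a)
      ((Real.exp a.2.1 • dx).prod (dt.prod dz)) x := by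
    unfold mulH
    refine HasFDerivAt.prodMk ?_ (HasFDerivAt.prodMk ?_ ?_)
    · exact (dx.hasFDerivAt.const_mul (Real.exp a.2.1)).const_add a.1
    · exact dt.hasFDerivAt.const_add a.2.1
    · exact dz.hasFDerivAt.const_add a.2.2
  rw [h1.fderiv]
  simp

lemma left_inv {g : BilinField} (hl : IsLeftInvariant mulH g) (p u v : V) :
    g p u v = g (0, 0, 0) (Real.exp (-p.2.1) * u.1, u.2.1, u.2.2)
      (Real.exp (-p.2.1) * v.1, v.2.1, v.2.2) := by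
  have h := hl p (0, 0, 0) (Real.exp (-p.2.1) * u.1, u.2.1, u.2.2)
      (Real.exp (-p.2.1) * v.1, v.2.1, v.2.2)
  rw [fderiv_mulH, fderiv_mulH] at h
  have e1 : mulH p (0, 0, 0) = p := by simp [mulH]
  have e2 : ∀ y : ℝ, Real.exp p.2.1 * (Real.exp (-p.2.1) * y) = y := by
    intro y
    rw [← mul_assoc, ← Real.exp_add]
    simp
  rw [e1] at h
  simp only [e2] at h
  rw [← h]

/-- The expansion of a bilinear form. -/
lemma expand {g : BilinField} (hg : IsRiemannianMetric g) (u v : V) :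
    g (0, 0, 0) u v =
      g (0, 0, 0) (1, 0, 0) (1, 0, 0) * (u.1 * v.1)
      + g (0, 0, 0) (1, 0, 0) (0, 1, 0) * (u.1 * v.2.1 + u.2.1 * v.1)
      + g (0, 0, 0) (1, 0, 0) (0, 0, 1) * (u.1 * v.2.2 + u.2.2 * v.1)
      + g (0, 0, 0) (0, 1, 0) (0, 1, 0) * (u.2.1 * v.2.1)
      + g (0, 0, 0) (0, 1, 0) (0, 0, 1) * (u.2.1 * v.2.2 + u.2.2 * v.2.1)
      + g (0, 0, 0) (0, 0, 1) (0, 0, 1) * (u.2.2 * v.2.2) := by
  have hz : ∀ w : V, g (0, 0, 0) 0 w = 0 := by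
    intro w
    have h := hg.linear (0, 0, 0) 0 0 w 1
    simp at h
    linarith
  have hlin : ∀ u w : V, g (0, 0, 0) u w = u.1 * g (0, 0, 0) (1, 0, 0) w
      + u.2.1 * g (0, 0, 0) (0, 1, 0) w + u.2.2 * g (0, 0, 0) (0, 0, 1) w := by
    intro u w
    have e : u = u.1 • ((1, 0, 0) : V) + (u.2.1 • ((0, 1, 0) : V) + (u.2.2 • ((0, 0, 1) : V) + 0)) :=
      Prod.ext (by simp) (Prod.ext (by simp) (by simp))
    conv_lhs => rw [e]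
    rw [hg.linear, hg.linear, hg.linear, hz]
    ring
  have s1 := hg.symm (0, 0, 0) (1, 0, 0) v
  have s2 := hg.symm (0, 0, 0) (0, 1, 0) v
  have s3 := hg.symm (0, 0, 0) (0, 0, 1) v
  have s4 := hg.symm (0, 0, 0) (0, 1, 0) (1, 0, 0)
  have s5 := hg.symm (0, 0, 0) (0, 0, 1) (1, 0, 0)
  have s6 := hg.symm (0, 0, 0) (0, 0, 1) (0, 1, 0)
  rw [hlin u v, s1, s2, s3, hlin v (1, 0, 0), hlin v (0, 1, 0), hlin v (0, 0, 1), s4, s5, s6]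
  ring

/-- Every left-invariant Riemannian metric is one of the metrics `gP`. -/
theorem exists_par {g : BilinField} (hg : IsRiemannianMetric g) (hl : IsLeftInvariant mulH g) :
    ∃ P : Par, g = gP P := by
  obtain ⟨b11, hb11⟩ : ∃ b, b = g (0, 0, 0) (1, 0, 0) (1, 0, 0) := ⟨_, rfl⟩
  obtain ⟨b12, hb12⟩ : ∃ b, b = g (0, 0, 0) (1, 0, 0) (0, 1, 0) := ⟨_, rfl⟩
  obtain ⟨b13, hb13⟩ : ∃ b, b = g (0, 0, 0) (1, 0, 0) (0, 0, 1) := ⟨_, rfl⟩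
  obtain ⟨b22, hb22⟩ : ∃ b, b = g (0, 0, 0) (0, 1, 0) (0, 1, 0) := ⟨_, rfl⟩
  obtain ⟨b23, hb23⟩ : ∃ b, b = g (0, 0, 0) (0, 1, 0) (0, 0, 1) := ⟨_, rfl⟩
  obtain ⟨b33, hb33⟩ : ∃ b, b = g (0, 0, 0) (0, 0, 1) (0, 0, 1) := ⟨_, rfl⟩
  have hex := expand hg
  simp only [← hb11, ← hb12, ← hb13, ← hb22, ← hb23, ← hb33] at hex
  -- first pivot
  have p1 : 0 < b11 := by
    rw [hb11]
    exact hg.pos _ _ (by simp)
  obtain ⟨σ, hσ0, hσ⟩ : ∃ σ : ℝ, 0 < σ ∧ σ * σ = b11 :=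
    ⟨Real.sqrt b11, Real.sqrt_pos.2 p1, Real.mul_self_sqrt p1.le⟩
  obtain ⟨ρ, hρ⟩ : ∃ ρ : ℝ, σ * ρ = b13 := ⟨b13 / σ, by field_simp⟩
  obtain ⟨τ, hτ⟩ : ∃ τ : ℝ, σ * τ = b12 := ⟨b12 / σ, by field_simp⟩
  -- second pivot
  have p2 : 0 < b33 - ρ * ρ := by
    have h := hg.pos (0, 0, 0) (-(ρ / σ), 0, 1) (by simp)
    rw [hex] at h
    simp only at h
    have e : b11 * (-(ρ / σ) * -(ρ / σ)) + b12 * (-(ρ / σ) * 0 + 0 * -(ρ / σ))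
        + b13 * (-(ρ / σ) * 1 + 1 * -(ρ / σ)) + b22 * (0 * 0) + b23 * (0 * 1 + 1 * 0)
        + b33 * (1 * 1) = b33 - ρ * ρ := by
      rw [← hσ, ← hρ]
      field_simp
      ring
    rwa [e] at h
  obtain ⟨μ, hμ0, hμ⟩ : ∃ μ : ℝ, 0 < μ ∧ μ * μ = b33 - ρ * ρ :=
    ⟨Real.sqrt (b33 - ρ * ρ), Real.sqrt_pos.2 p2, Real.mul_self_sqrt p2.le⟩
  obtain ⟨ν, hν⟩ : ∃ ν : ℝ, μ * ν = b23 - ρ * τ := ⟨(b23 - ρ * τ) / μ, by field_simp⟩
  -- third pivot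
  have h33 : b33 = μ * μ + ρ * ρ := by linarith
  have h23 : b23 = μ * ν + ρ * τ := by linarith
  have p3 : 0 < b22 - τ * τ - ν * ν := by
    have h := hg.pos (0, 0, 0) (-((τ - ρ * ν / μ) / σ), 1, -(ν / μ)) (by simp)
    rw [hex] at h
    simp only at h
    have e : b11 * (-((τ - ρ * ν / μ) / σ) * -((τ - ρ * ν / μ) / σ))
        + b12 * (-((τ - ρ * ν / μ) / σ) * 1 + 1 * -((τ - ρ * ν / μ) / σ))
        + b13 * (-((τ - ρ * ν / μ) / σ) * -(ν / μ) + -(ν / μ) * -((τ - ρ * ν / μ) / σ))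
        + b22 * (1 * 1) + b23 * (1 * -(ν / μ) + -(ν / μ) * 1)
        + b33 * (-(ν / μ) * -(ν / μ)) = b22 - τ * τ - ν * ν := by
      rw [← hσ, ← hρ, ← hτ, h33, h23]
      field_simp
      ring
    rwa [e] at h
  obtain ⟨l, hl0, hll⟩ : ∃ l : ℝ, 0 < l ∧ l * l = b22 - τ * τ - ν * ν :=
    ⟨Real.sqrt (b22 - τ * τ - ν * ν), Real.sqrt_pos.2 p3, Real.mul_self_sqrt p3.le⟩
  have h22 : b22 = l * l + τ * τ + ν * ν := by linarith
  refine ⟨⟨l, μ, σ, ν, ρ, τ, hl0, hμ0, hσ0⟩, ?_⟩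
  funext p u v
  rw [left_inv hl, hex]
  simp only [gP, fA, fC]
  rw [← hσ, ← hρ, ← hτ, h33, h23, h22]
  ring

end Pool.Agent.Y226.CM
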