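import Mathlib
import Pool.Agent.Y226.CM.Fol

/-! The foliations are not product foliations. -/

open scoped ContDiff Topology
open Set Filter

noncomputable section

namespace Pool.Agent.Y226.CM

open Pool.Agent.Results.MP_c71f82_gt.NonProductH2R

variable (P : Par)

/-- the point with `t = 0` and angle `s` -/
def pt (s : ℝ) : V := (0, 0, P.l * s / P.m)

lemma phi_pt (s : ℝ) : phi P (pt P s) = s := by
  have hl := P.hl.ne'
  have hm := P.hm.ne'
  simp only [phi, fC, pt]
  field_simp
  ring

lemma same_leaf (s : ℝ) (hs : 0 < s) (hsb : s < Real.pi / 2) :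
    SameLeaf (gP P) (NP P) (pt P (-s)) (pt P s) := by
  have hl := P.hl.ne'
  have hm := P.hm.ne'
  set f : ℝ → ℝ := fun r => - s * Real.cos (Real.pi * r) with hf
  have hfb : ∀ r, |f r| < Real.pi / 2 := by
    intro r
    simp only [hf]
    rw [abs_mul, abs_neg, abs_of_pos hs]
    have := Real.abs_cos_le_one (Real.pi * r)
    nlinarith
  have hcos : ∀ r, 0 < Real.cos (f r) := fun r => Real.cos_pos_of_mem_Ioo (abs_lt.1 (hfb r))
  have hfs : ContDiff ℝ ∞ f := by
    simp only [hf]
    exact contDiff_const.mul (Real.contDiff_cos.comp (contDiff_const.mul contDiff_id))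
  have hfd : ∀ r, HasDerivAt f (deriv f r) r := fun r =>
    (hfs.differentiable (by simp) r).hasDerivAt
  set T : ℝ → ℝ := fun r => Real.log (Real.cos (f r)) - Real.log (Real.cos s) with hT
  have hTs : ContDiff ℝ ∞ T := by
    simp only [hT]
    refine ContDiff.sub ?_ contDiff_const
    exact (Real.contDiff_cos.comp hfs).log (fun r => (hcos r).ne')
  have hTd : ∀ r, HasDerivAt T (-Real.sin (f r) * deriv f r / Real.cos (f r)) r := by
    intro r
    simp only [hT]
    exact (((hfd r).cos).log (hcos r).ne').sub_const _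
  have hZs : ContDiff ℝ ∞ (fun r => (P.l * f r - P.nu * T r) / P.m) :=
    ((contDiff_const.mul hfs).sub (contDiff_const.mul hTs)).div_const _
  have hZd : ∀ r, HasDerivAt (fun r => (P.l * f r - P.nu * T r) / P.m)
      ((P.l * deriv f r - P.nu * (-Real.sin (f r) * deriv f r / Real.cos (f r))) / P.m) r := by
    intro r
    exact (((hfd r).const_mul P.l).sub ((hTd r).const_mul P.nu)).div_const _
  refine ⟨fun r => (0, T r, (P.l * f r - P.nu * T r) / P.m),
    contDiff_const.prodMk (hTs.prodMk hZs), ?_, ?_, ?_⟩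
  · simp only [hT, hf, pt]
    simp
  · simp only [hT, hf, pt]
    simp
  · intro r
    rw [conormal_NP]
    have hd : deriv (fun r => ((0 : ℝ), T r, (P.l * f r - P.nu * T r) / P.m)) r
        = (0, -Real.sin (f r) * deriv f r / Real.cos (f r),
          (P.l * deriv f r - P.nu * (-Real.sin (f r) * deriv f r / Real.cos (f r))) / P.m) :=
      ((hasDerivAt_const r (0 : ℝ)).prodMk ((hTd r).prodMk (hZd r))).deriv
    rw [hd]
    have hphi : phi P ((0 : ℝ), T r, (P.l * f r - P.nu * T r) / P.m) = f r := by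
      simp only [phi, fC]
      field_simp
      ring
    rw [hphi]
    simp only [fC]
    have := (hcos r).ne'
    field_simp
    ring

/-- `e^{-t} cos φ` is constant on the leaves, so the two leaves `φ = ±π/2` are different -/
theorem not_same : ¬ SameLeaf (gP P) (NP P) (pt P (-(Real.pi / 2))) (pt P (Real.pi / 2)) := by
  rintro ⟨γ, hγ, hγ0, hγ1, hγt⟩
  have hl := P.hl.ne'
  have hm := P.hm.ne'
  have hb : 0 < Real.pi / 2 := by positivity
  have hγd : ∀ r, HasDerivAt γ (deriv γ r) r := fun r =>
    (hγ.differentiable (by simp) r).hasDerivAt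
  have hd1 : ∀ r, HasDerivAt (fun r => (γ r).2.1) (deriv γ r).2.1 r := fun r =>
    (hγd r).snd.fst
  have hd2 : ∀ r, HasDerivAt (fun r => phi P (γ r)) (fC P (deriv γ r) / P.l) r := by
    intro r
    have h := (hasFDerivAt_phi P (γ r)).comp_hasDerivAt r (hγd r)
    rw [dphi_apply] at h
    exact h
  have hconst : ∀ r, HasDerivAt (fun r => Real.exp (-(γ r).2.1) * Real.cos (phi P (γ r))) 0 r := by
    intro r
    have h1 : HasDerivAt (fun r => Real.exp (-(γ r).2.1))
        (Real.exp (-(γ r).2.1) * (-(deriv γ r).2.1)) r := (hd1 r).neg.exp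
    have h3 := h1.mul (hd2 r).cos
    have h4 := hγt r
    rw [conormal_NP] at h4
    refine h3.congr_deriv ?_
    field_simp
    linear_combination (-Real.exp (-(γ r).2.1)) * h4
  have hzero : ∀ r, Real.cos (phi P (γ r)) = 0 := by
    intro r
    have h1 : Real.exp (-(γ r).2.1) * Real.cos (phi P (γ r))
        = Real.exp (-(γ 0).2.1) * Real.cos (phi P (γ 0)) :=
      is_const_of_deriv_eq_zero (fun r => (hconst r).differentiableAt)
        (fun r => (hconst r).deriv) r 0
    rw [hγ0, phi_pt, Real.cos_neg, Real.cos_pi_div_two, mul_zero] at h1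
    rcases mul_eq_zero.1 h1 with h | h
    · exact absurd h (Real.exp_pos _).ne'
    · exact h
  have hphic : Continuous (phi P) := by
    unfold phi fC
    fun_prop
  have hcont : Continuous (fun r => phi P (γ r)) := hphic.comp hγ.continuous
  have hivt : (0 : ℝ) ∈ (fun r => phi P (γ r)) '' Icc (0 : ℝ) 1 := by
    apply intermediate_value_Icc zero_le_one hcont.continuousOn
    simp only [hγ0, hγ1, phi_pt]
    constructor <;> linarith
  obtain ⟨r, -, hr⟩ := hivt
  have h5 := hzero r
  simp only at hr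
  rw [hr, Real.cos_zero] at h5
  exact one_ne_zero h5

lemma continuous_pt : Continuous (pt P) := by
  unfold pt
  fun_prop

/-- the two leaves `φ = ±π/2` are not separated -/
theorem not_separated (U W : Set V) (hU : IsOpen U) (hW : IsOpen W)
    (h1 : pt P (-(Real.pi / 2)) ∈ U) (h2 : pt P (Real.pi / 2) ∈ W) :
    ∃ u ∈ U, ∃ w ∈ W, SameLeaf (gP P) (NP P) u w := by
  have hb : 0 < Real.pi / 2 := by positivity
  have e1 : ∀ᶠ s in 𝓝[<] (Real.pi / 2), pt P (-s) ∈ U :=
    (((continuous_pt P).comp continuous_neg).tendsto (Real.pi / 2)).mono_left nhdsWithin_le_nhds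
      |>.eventually (hU.mem_nhds h1)
  have e2 : ∀ᶠ s in 𝓝[<] (Real.pi / 2), pt P s ∈ W :=
    ((continuous_pt P).tendsto (Real.pi / 2)).mono_left nhdsWithin_le_nhds
      |>.eventually (hW.mem_nhds h2)
  have e3 : ∀ᶠ s in 𝓝[<] (Real.pi / 2), 0 < s ∧ s < Real.pi / 2 := by
    filter_upwards [Ioo_mem_nhdsLT hb] with s hs
    exact ⟨hs.1, hs.2⟩
  obtain ⟨s, hs1, hs2, hs3⟩ := (e1.and (e2.and e3)).exists
  exact ⟨_, hs1, _, hs2, same_leaf P s hs3.1 hs3.2⟩

end Pool.Agent.Y226.CM
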